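import Pool.Agent.Helper8_HK.Stmt1

/-! HK, module CORE: the main nondegeneracy theorem. -/

set_option autoImplicit false

namespace Pool.Agent.HK.H7

open Polynomial

section
variable {F : Type} [Field F]

theorem inO_cst (b : F) : InO 0 (cst F b) := by
  intro i hi
  unfold cst
  rw [HahnSeries.C_apply, HahnSeries.coeff_single_of_ne (ne_of_lt hi)]

theorem coeff_cst (b : F) : HahnSeries.coeff (cst F b) 0 = b := by
  unfold cst
  rw [HahnSeries.C_apply, HahnSeries.coeff_single_same]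

theorem cst_one : cst F 1 = 1 := map_one _

theorem inO_zero (k : ℤ) : InO k (0 : Kinf F) := fun _ _ => HahnSeries.coeff_zero

theorem iw (hM : MTXStmt) (b d : F) (hd : d ≠ 0) :
    (mat 1 (cst F b) 0 (cst F d) : GLK F) ∈ Iwahori := by
  have hdet : (1 : Kinf F) * cst F d - cst F b * 0 ≠ 0 := by
    rw [one_mul, mul_zero, sub_zero]
    exact (map_ne_zero (cst F)).2 hd
  obtain ⟨e1, e2, e3, e4⟩ := (hM F).1 1 (cst F b) 0 (cst F d) hdet
  refine ⟨?_, ?_, ?_, ?_, ?_, ?_⟩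
  · rw [e1, ← cst_one]; exact inO_cst 1
  · rw [e2]; exact inO_cst b
  · rw [e3]; exact inO_zero 1
  · rw [e4]; exact inO_cst d
  · rw [e1, ← cst_one, coeff_cst]; exact one_ne_zero
  · rw [e4, coeff_cst]; exact hd

theorem scal_one (hM : MTXStmt) : (scal 1 : GLK F) = 1 := by
  unfold scal
  exact (hM F).2.2.2.2.1

theorem inv_iw (hM : MTXStmt) [Fintype F] {R : Type} [AddCommGroup R] {φ : GLK F → R}
    (hφ : IsHarm φ) (g k : GLK F) (hk : k ∈ Iwahori) : φ (g * k) = φ g := by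
  have h := hφ.inv g 1 k one_ne_zero hk
  rwa [scal_one hM, mul_one] at h

theorem one_iw (hM : MTXStmt) : (1 : GLK F) ∈ Iwahori := by
  have h := iw (F := F) hM 0 1 one_ne_zero
  rw [map_zero, map_one, (hM F).2.2.2.2.1] at h
  exact h

theorem inv_scal (hM : MTXStmt) [Fintype F] {R : Type} [AddCommGroup R] {φ : GLK F → R}
    (hφ : IsHarm φ) (g : GLK F) (z : Kinf F) (hz : z ≠ 0) : φ (g * scal z) = φ g := by
  have h := hφ.inv g z 1 hz (one_iw hM)
  rwa [mul_one] at h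

/-- the standard coset representative -/
noncomputable def rx (x : F[X]) : GLK F := mat 0 (-1) 1 (emb F x)

theorem rx_det (x : F[X]) : (0 : Kinf F) * emb F x - (-1) * 1 ≠ 0 := by
  simp

theorem rx_add (hM : MTXStmt) (x : F[X]) (b : F) :
    rx x * mat 1 (cst F b) 0 (cst F 1) = rx (x + C b) := by
  have hdet : (1 : Kinf F) * cst F 1 - cst F b * 0 ≠ 0 := by
    rw [cst_one, one_mul, mul_zero, sub_zero]; exact one_ne_zero
  have hC : emb F (C b) = cst F b := by
    unfold emb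
    simp
  unfold rx
  rw [(hM F).2.2.1 _ _ _ _ _ _ _ _ (rx_det x) hdet, map_add, hC, cst_one]
  congr 1 <;> ring

theorem rx_mul (hM : MTXStmt) (x : F[X]) (a : F) (ha : a ≠ 0) :
    rx x * mat 1 (cst F 0) 0 (cst F a) = mat (cst F a) 0 0 (cst F 1) * rx (C a * x) := by
  have hdet : (1 : Kinf F) * cst F a - cst F 0 * 0 ≠ 0 := by
    rw [one_mul, mul_zero, sub_zero]
    exact (map_ne_zero (cst F)).2 ha
  have hdet2 : (cst F a : Kinf F) * cst F 1 - 0 * 0 ≠ 0 := by
    rw [cst_one, mul_one, mul_zero, sub_zero]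
    exact (map_ne_zero (cst F)).2 ha
  have hC : emb F (C a) = cst F a := by
    unfold emb
    simp
  unfold rx
  rw [(hM F).2.2.1 _ _ _ _ _ _ _ _ (rx_det x) hdet,
    (hM F).2.2.1 _ _ _ _ _ _ _ _ hdet2 (rx_det _), map_mul, hC, cst_one, map_zero]
  congr 1 <;> ring

theorem rx_harm (hM : MTXStmt) (x : F[X]) (c : F) :
    rx x * mat (cst F c) 1 1 0 = mat 1 0 (-(emb F (x + C c))) (-1) * scal (-1) := by
  have hdet : (cst F c : Kinf F) * 0 - 1 * 1 ≠ 0 := by simp
  have hC : emb F (C c) = cst F c := by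
    unfold emb
    simp
  have hdet2 : (1 : Kinf F) * (-1) - 0 * (-(emb F (x + C c))) ≠ 0 := by simp
  have hdet3 : (-1 : Kinf F) * (-1) - 0 * 0 ≠ 0 := by simp
  unfold rx scal
  rw [(hM F).2.2.1 _ _ _ _ _ _ _ _ (rx_det x) hdet,
    (hM F).2.2.1 _ _ _ _ _ _ _ _ hdet2 hdet3, map_add, hC]
  congr 1 <;> ring

end

section
variable {F : Type} [Field F] [Fintype F] {k : Type} [Field k] {n : F[X]}

/-- the function on the residue field -/
noncomputable def EE (n : F[X]) (ψ : GLK F → k) (y : AdjoinRoot n) : k :=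
  ψ (rx (Classical.choose (AdjoinRoot.mk_surjective y)))

theorem EE_mk (hC : COSStmt) (hn : n.Monic) (hirr : Irreducible n) {ψ : GLK F → k}
    (hψ : Invt n ψ) (x : F[X]) : EE n ψ (AdjoinRoot.mk n x) = ψ (rx x) := by
  unfold EE
  have h := Classical.choose_spec (AdjoinRoot.mk_surjective (AdjoinRoot.mk n x))
  rw [AdjoinRoot.mk_eq_mk] at h
  obtain ⟨δ, hδ, e⟩ := (hC F n hn hirr).2.1 _ _ h
  have e' : (rx (Classical.choose (AdjoinRoot.mk_surjective (AdjoinRoot.mk n x))) : GLK F)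
      = toK δ * rx x := e
  rw [e', hψ δ hδ]

theorem psi_one (hM : MTXStmt) (hV : VALStmt) {ψ : GLK F → k} (h1 : IsHarm ψ) (h2 : Invt n ψ)
    (h3 : val ψ 1 0 = 0) : ψ 1 = 0 := by
  have h := ((hV F k ψ h1).2.2.2.2.2.2 n h2).2.2.2 1
  rw [h3, smul_zero] at h
  unfold val at h
  have e : (unif F) ^ ((1 : ℤ) - ((1 : ℕ) : ℤ)) = 1 := by simp
  rw [e, (hM F).2.2.2.2.1] at h
  exact h

theorem psi_w (hM : MTXStmt) (hV : VALStmt) {ψ : GLK F → k} (h1 : IsHarm ψ)
    (h3 : val ψ 1 0 = 0) : ψ (rx 0) = 0 := by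
  have h := (hV F k ψ h1).2.2.2.2.2.1 1
  rw [one_mul, one_mul] at h
  unfold val at h3
  rw [zpow_one] at h3
  rw [h3] at h
  have h4 : ψ (mat 0 1 1 0) = 0 := by
    have := h.symm
    rwa [neg_eq_zero] at this
  have hne : (-1 : F) ≠ 0 := neg_ne_zero.mpr one_ne_zero
  have hdet : (0 : Kinf F) * 0 - 1 * 1 ≠ 0 := by simp
  have hdet2 : (1 : Kinf F) * cst F (-1) - cst F 0 * 0 ≠ 0 := by
    rw [one_mul, mul_zero, sub_zero]
    exact (map_ne_zero (cst F)).2 hne
  have e : (rx 0 : GLK F) = mat 0 1 1 0 * mat 1 (cst F 0) 0 (cst F (-1)) := by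
    unfold rx
    rw [(hM F).2.2.1 _ _ _ _ _ _ _ _ hdet hdet2, map_zero, map_zero, map_neg, map_one]
    congr 1 <;> ring
  rw [e, inv_iw hM h1 _ _ (iw hM 0 (-1) hne), h4]

theorem psi_k (hC : COSStmt) (hn : n.Monic) (hirr : Irreducible n)
    {ψ : GLK F → k} (h2 : Invt n ψ) [Fact (Irreducible n)] (κ : F[X])
    (hκ : AdjoinRoot.mk n κ ≠ 0) :
    ψ (mat 1 0 (-(emb F κ)) (-1)) = EE n ψ (AdjoinRoot.mk n κ)⁻¹ := by
  obtain ⟨x, hx⟩ := AdjoinRoot.mk_surjective (AdjoinRoot.mk n κ)⁻¹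
  have h : n ∣ κ * x - 1 := by
    rw [← AdjoinRoot.mk_eq_zero, map_sub, map_mul, hx, map_one, mul_inv_cancel₀ hκ, sub_self]
  obtain ⟨δ, hδ, e⟩ := (hC F n hn hirr).2.2 κ x h
  rw [e, h2 δ hδ, ← hx, EE_mk hC hn hirr h2]
  rfl

theorem psi_k0 (hM : MTXStmt) (hV : VALStmt) {ψ : GLK F → k} (h1 : IsHarm ψ) (h2 : Invt n ψ)
    (h3 : val ψ 1 0 = 0) (κ : F[X]) (hκ : n ∣ κ) :
    ψ (mat 1 0 (-(emb F κ)) (-1)) = 0 := by
  have hu : IsUnit ((1 : F[X]) * (-1) - 0 * (-κ)) := by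
    have : (1 : F[X]) * (-1) - 0 * (-κ) = -1 := by ring
    rw [this]
    exact isUnit_one.neg
  obtain ⟨γ, g1, g2, g3, g4⟩ := (hM F).2.2.2.2.2.2.2.2.2.2.2.2.1 1 0 (-κ) (-1) hu
  have hγ : γ ∈ Gam0 n := by
    show n ∣ γ 1 0
    rw [g3]
    exact (dvd_neg).mpr hκ
  obtain ⟨k1, k2, k3, k4⟩ := (hM F).2.2.2.2.2.2.2.2.2.2.2.1 γ
  have e : (toK γ : GLK F) = mat 1 0 (-(emb F κ)) (-1) := by
    rw [((hM F).2.1 (toK γ)).1, k1, k2, k3, k4, g1, g2, g3, g4]
    simp only [map_one, map_zero, map_neg]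
  rw [← e, ← mul_one (toK γ), h2 γ hγ, psi_one hM hV h1 h2 h3]

end

/-- CORE -/
theorem core (hCMF : CMFStmt) (hKAP : KAPStmt) (hLAT : LATStmt) (hZER : ZERStmt) (hC : COSStmt)
    (hV : VALStmt) (hATK : ATKStmt) (hM : MTXStmt) : COREStmt := by
  classical
  intro F _ _ k _ n hn hirr hdeg φ hφ hvan
  have : Fact (Irreducible n) := ⟨hirr⟩
  have hn0 : n ≠ 0 := hn.ne_zero
  obtain ⟨h1, h2, h5⟩ := hATK F k n hn0 φ hφ.harm hφ.invt
  set ψ : GLK F → k := atk n φ with hψdef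
  have h3 : val ψ 1 0 = 0 := hφ.rzero
  -- the residue field
  have hfin : Module.finrank F (AdjoinRoot n) = 4 := by
    rw [(AdjoinRoot.powerBasis hn0).finrank, AdjoinRoot.powerBasis_dim, hdeg]
  have : Module.Finite F (AdjoinRoot n) := Module.finite_of_finrank_pos (by omega)
  have : Finite (AdjoinRoot n) := Module.finite_of_finite F
  letI : Fintype (AdjoinRoot n) := Fintype.ofFinite _
  have hcardL : Fintype.card (AdjoinRoot n) = Fintype.card F ^ 4 := by
    rw [Module.card_eq_pow_finrank (K := F) (V := AdjoinRoot n), hfin]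
  let τ : AdjoinRoot n →ₗ[F] F := (Polynomial.lcoeff F 3).comp (AdjoinRoot.modByMonicHom hn)
  have hτmk : ∀ f : F[X], τ (AdjoinRoot.mk n f) = (f %ₘ n).coeff 3 := by
    intro f
    show (Polynomial.lcoeff F 3) (AdjoinRoot.modByMonicHom hn (AdjoinRoot.mk n f)) = _
    rw [AdjoinRoot.modByMonicHom_mk, Polynomial.lcoeff_apply]
  have hndeg : n.degree = 4 := by
    rw [Polynomial.degree_eq_natDegree hn0, hdeg]; rfl
  have hτ : τ ≠ 0 := by
    intro h
    have h' : τ (AdjoinRoot.mk n (X ^ 3)) = 0 := by rw [h]; rfl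
    rw [hτmk, (Polynomial.modByMonic_eq_self_iff hn).2, Polynomial.coeff_X_pow, if_pos rfl] at h'
    · exact one_ne_zero h'
    · rw [hndeg, Polynomial.degree_X_pow]
      norm_num
  have hE := EE_mk (k := k) (ψ := ψ) hC hn hirr h2
  -- affine invariance
  have hA : ∀ (a b : F) (x : AdjoinRoot n), a ≠ 0 →
      EE n ψ (algebraMap F (AdjoinRoot n) a * x + algebraMap F (AdjoinRoot n) b) = EE n ψ x := by
    intro a b x ha
    obtain ⟨f, rfl⟩ := AdjoinRoot.mk_surjective x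
    have e1 : algebraMap F (AdjoinRoot n) a * AdjoinRoot.mk n f + algebraMap F (AdjoinRoot n) b
        = AdjoinRoot.mk n (C a * f + C b) := by
      rw [map_add, map_mul]
      rfl
    rw [e1, hE, hE, ← rx_add hM, inv_iw hM h1 _ _ (iw hM b 1 one_ne_zero)]
    obtain ⟨γ, hγ, e2⟩ := (hM F).2.2.2.2.2.2.2.2.2.2.2.2.2.2.1 a 1 n ha one_ne_zero
    have e3 := rx_mul hM f a ha
    rw [← e2] at e3
    have e4 : ψ (rx f * mat 1 (cst F 0) 0 (cst F a)) = ψ (rx f) :=
      inv_iw hM h1 _ _ (iw hM 0 a ha)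
    rw [e3, h2 γ hγ] at e4
    exact e4
  have hE0 : EE n ψ 0 = 0 := by
    rw [← map_zero (AdjoinRoot.mk n), hE]
    exact psi_w hM hV h1 h3
  -- harmonicity
  have hH : ∀ x : AdjoinRoot n,
      EE n ψ x + ∑ c : F, EE n ψ ((x + algebraMap F (AdjoinRoot n) c)⁻¹) = 0 := by
    intro x
    obtain ⟨f, rfl⟩ := AdjoinRoot.mk_surjective x
    have h := h1.sum (rx f)
    rw [hE]
    rw [← h]
    congr 1
    apply Finset.sum_congr rfl
    intro c _
    rw [rx_harm hM, inv_scal hM h1 _ _ (neg_ne_zero.mpr one_ne_zero)]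
    have e1 : AdjoinRoot.mk n f + algebraMap F (AdjoinRoot n) c = AdjoinRoot.mk n (f + C c) := by
      rw [map_add]
      rfl
    rw [e1]
    by_cases h0 : AdjoinRoot.mk n (f + C c) = 0
    · rw [h0, inv_zero, hE0, psi_k0 hM hV h1 h2 h3 _ (AdjoinRoot.mk_eq_zero.mp h0)]
    · rw [psi_k hC hn hirr h2 _ h0]
  -- hyperplane sums
  let P : (Fin 4 → F) → F[X] := fun t => ∑ j : Fin 4, C (t j) * X ^ (j : ℕ)
  have hPdeg : ∀ t, (P t).degree < n.degree := by
    intro t
    rw [hndeg]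
    refine lt_of_le_of_lt (Polynomial.degree_sum_le _ _) ?_
    rw [Finset.sup_lt_iff (WithBot.bot_lt_coe 4)]
    intro j _
    refine lt_of_le_of_lt (Polynomial.degree_C_mul_X_pow_le _ _) ?_
    exact_mod_cast j.isLt
  have hPcoeff : ∀ t (i : Fin 4), (P t).coeff i = t i := by
    intro t i
    show (∑ j : Fin 4, C (t j) * X ^ (j : ℕ)).coeff i = t i
    rw [Polynomial.finsetSum_coeff, Finset.sum_eq_single i]
    · rw [Polynomial.coeff_C_mul, Polynomial.coeff_X_pow, if_pos rfl, mul_one]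
    · intro j _ hj
      rw [Polynomial.coeff_C_mul, Polynomial.coeff_X_pow, if_neg, mul_zero]
      intro h
      exact hj (Fin.ext h.symm)
    · intro h
      exact absurd (Finset.mem_univ i) h
  have hinj : Function.Injective fun t => AdjoinRoot.mk n (P t) := by
    intro t t' h
    have h' : AdjoinRoot.mk n (P t) = AdjoinRoot.mk n (P t') := h
    rw [AdjoinRoot.mk_eq_mk] at h'
    have hz : P t - P t' = 0 := by
      apply Polynomial.eq_zero_of_dvd_of_degree_lt h'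
      exact lt_of_le_of_lt (Polynomial.degree_sub_le _ _) (max_lt (hPdeg t) (hPdeg t'))
    funext i
    rw [← hPcoeff t i, ← hPcoeff t' i, sub_eq_zero.mp hz]
  have hbij : Function.Bijective fun t => AdjoinRoot.mk n (P t) := by
    rw [Fintype.bijective_iff_injective_and_card]
    refine ⟨hinj, ?_⟩
    rw [hcardL, Fintype.card_fun, Fintype.card_fin]
  have hmon : ∀ m : F[X], m.Monic → m.natDegree ≤ 3 →
      ∑ κ : AdjoinRoot n, (if τ (κ * AdjoinRoot.mk n m) = 1 then EE n ψ κ⁻¹ else 0) = 0 := by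
    intro m hm hmd
    have e1 := hvan m hm hmd
    rw [hCMF F k n m hn0 hm hmd φ hφ.harm hφ.invt hφ.rinf,
      hKAP F k n m hn hdeg hm hmd φ hφ.harm hφ.invt, neg_eq_zero] at e1
    rw [← Equiv.sum_comp (Equiv.ofBijective _ hbij)]
    refine Eq.trans ?_ e1
    apply Finset.sum_congr rfl
    intro t _
    have e2 : (Equiv.ofBijective _ hbij) t = AdjoinRoot.mk n (P t) := rfl
    rw [e2, ← map_mul, hτmk, mul_comm (P t) m]
    by_cases hc : ((m * P t) %ₘ n).coeff 3 = 1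
    · have hne : AdjoinRoot.mk n (P t) ≠ 0 := by
        intro h0
        have h0' := AdjoinRoot.mk_eq_zero.mp h0
        have h0'' : (m * P t) %ₘ n = 0 :=
          (Polynomial.modByMonic_eq_zero_iff_dvd hn).2 (dvd_mul_of_dvd_right h0' m)
        rw [h0'', Polynomial.coeff_zero] at hc
        exact zero_ne_one hc
      rw [if_pos hc]
      refine Eq.trans ?_ (if_pos hc).symm
      exact (psi_k hC hn hirr h2 _ hne).symm
    · rw [if_neg hc]
      exact (if_neg hc).symm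
  have hS : ∀ M : AdjoinRoot n, M ≠ 0 →
      ∑ κ : AdjoinRoot n, (if τ (κ * M) = 1 then EE n ψ κ⁻¹ else 0) = 0 := by
    intro M hM0
    obtain ⟨f, rfl⟩ := AdjoinRoot.mk_surjective M
    have e0 : AdjoinRoot.mk n f = AdjoinRoot.mk n (f %ₘ n) := by
      rw [AdjoinRoot.mk_eq_mk]
      refine ⟨f /ₘ n, ?_⟩
      have h := Polynomial.modByMonic_add_div f n
      linear_combination -h
    rw [e0] at hM0 ⊢
    set g := f %ₘ n with hg
    have hg0 : g ≠ 0 := by
      intro h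
      rw [h, map_zero] at hM0
      exact hM0 rfl
    have hgd : g.natDegree ≤ 3 := by
      have h1 : g.degree < n.degree := Polynomial.degree_modByMonic_lt f hn
      rw [hndeg, Polynomial.degree_eq_natDegree hg0] at h1
      have h2 : g.natDegree < 4 := by exact_mod_cast h1
      omega
    set c := g.leadingCoeff with hc
    have hc0 : c ≠ 0 := Polynomial.leadingCoeff_ne_zero.mpr hg0
    have hmon' : (g * C c⁻¹).Monic := Polynomial.monic_mul_leadingCoeff_inv hg0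
    have hnd : (g * C c⁻¹).natDegree ≤ 3 := by
      rw [Polynomial.natDegree_mul_leadingCoeff_inv _ hg0]
      exact hgd
    have e1 := hmon _ hmon' hnd
    have hca : algebraMap F (AdjoinRoot n) c ≠ 0 := by
      rw [Ne, map_eq_zero]
      exact hc0
    rw [← Equiv.sum_comp (Equiv.mulLeft₀ (algebraMap F (AdjoinRoot n) c) hca)
      (fun κ => if τ (κ * AdjoinRoot.mk n (g * C c⁻¹)) = 1 then EE n ψ κ⁻¹ else 0)] at e1
    refine Eq.trans ?_ e1
    apply Finset.sum_congr rfl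
    intro κ _
    have e2 : (Equiv.mulLeft₀ (algebraMap F (AdjoinRoot n) c) hca) κ
        = algebraMap F (AdjoinRoot n) c * κ := rfl
    have e3 : algebraMap F (AdjoinRoot n) c * κ * AdjoinRoot.mk n (g * C c⁻¹)
        = κ * AdjoinRoot.mk n g := by
      have e4 : AdjoinRoot.mk n (g * C c⁻¹) = AdjoinRoot.mk n g * algebraMap F (AdjoinRoot n) c⁻¹ := by
        rw [map_mul]
        rfl
      rw [e4, map_inv₀]
      field_simp
    have e5 : (algebraMap F (AdjoinRoot n) c * κ)⁻¹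
        = algebraMap F (AdjoinRoot n) c⁻¹ * κ⁻¹ + algebraMap F (AdjoinRoot n) 0 := by
      rw [map_zero, add_zero, map_inv₀, mul_inv]
    show _ = if τ ((Equiv.mulLeft₀ (algebraMap F (AdjoinRoot n) c) hca) κ
      * AdjoinRoot.mk n (g * C c⁻¹)) = 1 then
        EE n ψ ((Equiv.mulLeft₀ (algebraMap F (AdjoinRoot n) c) hca) κ)⁻¹ else 0
    rw [e2, e3, e5, hA _ _ _ (inv_ne_zero hc0)]
  have hEz : ∀ x, EE n ψ x = 0 :=
    hLAT F (AdjoinRoot n) k hfin τ hτ (EE n ψ) hA hH hE0 hS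
  have hψ0 : ∀ g, ψ g = 0 := by
    apply hZER F k ψ h1
    intro γ
    rcases (hC F n hn hirr).1 γ with hγ | ⟨δ, hδ, x, _, e⟩
    · rw [← mul_one (toK γ), h2 γ hγ, psi_one hM hV h1 h2 h3]
    · rw [e, h2 δ hδ]
      have := hEz (AdjoinRoot.mk n x)
      rw [hE] at this
      exact this
  intro g
  rw [← h5]
  exact hψ0 _

end Pool.Agent.HK.H7
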