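import Pool.Agent.Helper8_HK.Stmt3
import Pool.Agent.Helper19_HK.LAU
import Pool.Agent.Helper47_HK.MTX

/-! Squad HK, module EXP: expansions of periodic functions. -/

namespace Pool.Agent.HK.H7

open Polynomial Filter

section digits

variable {F : Type} [Field F]

theorem dig_append (k : ℤ) (n1 n2 : ℕ) (s1 : Fin n1 → F) (s2 : Fin n2 → F) :
    dig k (Fin.append s1 s2) = dig k s1 + dig (k + n1) s2 := by
  unfold dig
  rw [Fin.sum_univ_add]
  simp only [Fin.append_left, Fin.append_right, Fin.val_castAdd, Fin.val_natAdd]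
  congr 1
  refine Finset.sum_congr rfl fun j _ => ?_
  congr 2
  push_cast; ring

theorem sum_split [Fintype F] {β : Type} [AddCommMonoid β] (K n1 n2 : ℕ) (hK : K = n1 + n2)
    (k : ℤ) (f : Kinf F → β) :
    ∑ s : Fin K → F, f (dig k s) =
      ∑ s2 : Fin n2 → F, ∑ s1 : Fin n1 → F, f (dig k s1 + dig (k + n1) s2) := by
  subst hK
  rw [← (Fin.appendEquiv n1 n2).sum_comp, Fintype.sum_prod_type_right]
  refine Finset.sum_congr rfl fun s2 _ => Finset.sum_congr rfl fun s1 _ => ?_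
  rw [← dig_append]
  rfl

theorem dig_poly (D : ℕ) (s : Fin (D + 1) → F) : ∃ a : F[X], dig (-(D : ℤ)) s = emb F a := by
  obtain ⟨-, -, -, hC, hX, -⟩ := Pool.Agent.HK.H19.lau F
  refine ⟨∑ j : Fin (D + 1), Polynomial.C (s j) * X ^ (D - (j : ℕ)), ?_⟩
  unfold dig
  rw [map_sum]
  refine Finset.sum_congr rfl fun j _ => ?_
  rw [map_mul, map_pow, hC, hX, ← zpow_natCast, ← zpow_mul]
  have hj : (j : ℕ) ≤ D := Nat.lt_succ_iff.1 j.2
  congr 2
  rw [Nat.cast_sub hj]; ring

theorem dig_InO (N : ℕ) (s : Fin N → F) : InO 1 (dig 1 s) := by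
  obtain ⟨-, -, hm, -, -, -, hz, -⟩ := Pool.Agent.HK.H19.lau F
  intro i hi
  unfold dig
  rw [HahnSeries.coeff_sum]
  refine Finset.sum_eq_zero fun j _ => ?_
  rw [hm, ← mul_one ((unif F) ^ (1 + ((j : ℕ) : ℤ))), hz, HahnSeries.coeff_one, if_neg (by omega),
    mul_zero]

theorem norm_InO [Fintype F] {C : Type} [NormedField C] {ι : Kinf F →+* C} (hN : NormOK ι)
    (x : Kinf F) (hx : InO 1 x) : ‖ι x‖ ≤ 1 := by
  by_cases h : x = 0
  · rw [h, map_zero, norm_zero]; exact zero_le_one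
  · rw [hN x h]
    have h1 : 1 ≤ HahnSeries.order x := by
      by_contra hc
      exact h (HahnSeries.coeff_order_eq_zero.1 (hx _ (by omega)))
    have hq : (1 : ℝ) ≤ ((Fintype.card F : ℕ) : ℝ) := by
      exact_mod_cast Fintype.card_pos
    exact zpow_le_one_of_nonpos₀ hq (by omega)

end digits

section ultra

theorem norm_le_of_hasSum {C : Type} [NormedField C] [IsUltrametricDist C] {f : ℕ → C} {a : C}
    {D : ℝ} (hD : 0 ≤ D) (h : HasSum f a) (hf : ∀ i, ‖f i‖ ≤ D) : ‖a‖ ≤ D :=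
  le_of_tendsto' h.norm (fun _ =>
    IsUltrametricDist.norm_sum_le_of_forall_le_of_nonneg hD fun i _ => hf i)

end ultra

theorem expOne (hCAU : CAUStmt) (hKHA : KHAStmt) (hTBB : TBBStmt) (hINT : INTStmt)
    (hLIP : LIPStmt)
    (F : Type) [Field F] [Fintype F] (C : Type) [NormedField C]
    [IsAlgClosed C] [CompleteSpace C] [IsUltrametricDist C] (ι : Kinf F →+* C) (ρ : C)
    (hc : Ctx ι ρ) (h : C → C) (B : ℝ) (ho : Off ι h) (hh : IsHolo ι h) (hB : BddI ι B h)
    (hper : ∀ a : F[X], slash ι (mat 1 (emb F a) 0 1) h = h) (e : C → C) (he : IsEA ι e) :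
    HasExp ι 1 1 h (fun i => if i = 0 then 0 else IntK (kap ι ρ h) (fun x => (e (ι x)) ^ (i - 1)))
    ∧ IntK (kap ι ρ h) (fun x => (e (ι x)) ^ 0) = kap ι ρ h (mat (unif F) 0 0 1) := by
  obtain ⟨hrec, -⟩ := hCAU F C ι ρ hc h B ho hh hB
  obtain ⟨hk, -, -⟩ := hKHA F C ι ρ hc
  obtain ⟨hharm, hkg, -, hkb⟩ := hk h ho hh
  have hφB := hkb B hB
  obtain ⟨t1, t2, t3, t4, t5⟩ := hTBB F C ι hc.ok e he
  obtain ⟨i1, -, -, i4, -, i6, -⟩ := hINT F C ι hc.ok (kap ι ρ h) B hharm hφB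
  obtain ⟨-, -, l3, l4⟩ := hLIP F C ι hc.ok
  obtain ⟨m1, -, m3, -⟩ := Pool.Agent.HK.H47.mtx F
  have hB0 : 0 ≤ B := le_trans (norm_nonneg _) (hφB 1)
  set φ := kap ι ρ h with hφ
  set q : ℝ := ((Fintype.card F : ℕ) : ℝ) with hq
  have hq1 : 1 < q := by
    rw [hq]; exact_mod_cast Fintype.one_lt_card
  have hq0 : 0 < q := by linarith
  have hE : ∀ j : ℕ, LipK ι (fun x : Kinf F => (e (ι x)) ^ j) := by
    intro j
    have := l3 _ j (l4 e he 1)
    simpa using this
  -- periodicity of the cochain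
  have hpφ : ∀ (k : ℤ) (a : F[X]) (y : Kinf F),
      φ (mat ((unif F) ^ k) (emb F a + y) 0 1) = φ (mat ((unif F) ^ k) y 0 1) := by
    intro k a y
    have h1 := hkg (mat 1 (emb F a) 0 1) (mat ((unif F) ^ k) y 0 1)
    rw [hper a] at h1
    have hu : (unif F) ≠ 0 := by
      obtain ⟨-, -, -, -, -, hu, -⟩ := Pool.Agent.HK.H19.lau F
      exact hu
    rw [m3 _ _ _ _ _ _ _ _ (by simp) (by simpa using zpow_ne_zero k hu)] at h1
    refine Eq.trans ?_ h1.symm
    congr 1
    simp [add_comm]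
  -- the main limit
  have hA : ∀ z ∈ Om ι, Tendsto (fun M : ℕ => SInt φ M (fun y => tb ι 1 (z - ι y))) atTop
      (nhds (h z)) := by
    intro z hz
    have h1 := (tendsto_add_atTop_iff_nat 1).2 (hrec z hz)
    obtain ⟨M0, hM0⟩ := pow_unbounded_of_one_lt (max ‖z‖ 1) hq1
    have h2 : Tendsto (fun M : ℕ => (∑ s : Fin (2 * (M + 1)) → F,
        φ (mat ((unif F) ^ ((M + 1 : ℕ) : ℤ)) (dig (-((M + 1 : ℕ) : ℤ)) s) 0 1) *
          (z - ι (dig (-((M + 1 : ℕ) : ℤ)) s))⁻¹) - SInt φ M (fun y => tb ι 1 (z - ι y))) atTop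
        (nhds 0) := by
      have hz2 : Tendsto (fun M : ℕ => B * (q ^ (M + 1 + 1))⁻¹) atTop (nhds 0) := by
        have e1 : Tendsto (fun M : ℕ => ((q⁻¹) ^ M)) atTop (nhds 0) :=
          tendsto_pow_atTop_nhds_zero_of_lt_one (by positivity) (inv_lt_one_of_one_lt₀ hq1)
        have e2 := (e1.const_mul (B * (q ^ 2)⁻¹))
        rw [mul_zero] at e2
        refine e2.congr fun M => ?_
        rw [inv_pow, mul_assoc, ← mul_inv, ← pow_add]
        congr 3
        ring
      refine squeeze_zero_norm' ?_ hz2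
      filter_upwards [eventually_ge_atTop M0] with M hM
      rw [sum_split (2 * (M + 1)) (M + 2) M (by ring) (-((M + 1 : ℕ) : ℤ)) (fun y =>
        φ (mat ((unif F) ^ ((M + 1 : ℕ) : ℤ)) y 0 1) * (z - ι y)⁻¹)]
      unfold SInt
      rw [← Finset.sum_sub_distrib]
      refine IsUltrametricDist.norm_sum_le_of_forall_le_of_nonneg (by positivity) fun s2 _ => ?_
      have e1 : (-((M + 1 : ℕ) : ℤ) + ((M + 2 : ℕ) : ℤ)) = 1 := by push_cast; ring
      rw [e1]
      have e2 : ∀ s1 : Fin (M + 2) → F, φ (mat ((unif F) ^ ((M + 1 : ℕ) : ℤ))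
          (dig (-((M + 1 : ℕ) : ℤ)) s1 + dig 1 s2) 0 1) *
          (z - ι (dig (-((M + 1 : ℕ) : ℤ)) s1 + dig 1 s2))⁻¹ =
          φ (mat ((unif F) ^ ((M : ℤ) + 1)) (dig 1 s2) 0 1) *
            ((z - ι (dig 1 s2)) - ι (dig (-((M + 1 : ℕ) : ℤ)) s1))⁻¹ := by
        intro s1
        obtain ⟨a, ha⟩ := dig_poly (M + 1) s1
        rw [ha, hpφ, map_add]
        have e3 : z - (ι (emb F a) + ι (dig 1 s2)) = z - ι (dig 1 s2) - ι (emb F a) := by ring
        rw [e3]
        push_cast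
        rfl
      rw [Finset.sum_congr rfl fun s1 _ => e2 s1, ← Finset.mul_sum, ← mul_sub, norm_mul]
      refine mul_le_mul (hφB _) ?_ (norm_nonneg _) hB0
      refine t4 (z - ι (dig 1 s2)) (M + 1) ?_ ?_
      · intro x hx
        refine hz (x + dig 1 s2) ?_
        rw [map_add, ← hx]; ring
      · have h5 : ‖z - ι (dig 1 s2)‖ ≤ max ‖z‖ 1 := by
          rw [sub_eq_add_neg]
          refine le_trans (IsUltrametricDist.norm_add_le_max _ _) ?_
          rw [norm_neg]
          exact max_le_max le_rfl (norm_InO hc.ok _ (dig_InO M s2))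
        refine le_trans h5 (le_trans hM0.le ?_)
        exact pow_le_pow_right₀ hq1.le (by omega)
    have h3 := h1.sub h2
    rw [sub_zero] at h3
    refine h3.congr fun M => ?_
    ring
  -- integrals of the powers
  have hI : ∀ j : ℕ, ‖IntK φ (fun x => (e (ι x)) ^ j)‖ ≤ B * (q⁻¹) ^ j := by
    intro j
    refine i4 _ _ (by positivity) (hE j) fun x _ => ?_
    rw [norm_pow]
    exact pow_le_pow_left₀ (norm_nonneg _) (t1 x) j
  refine ⟨⟨1, fun z hz hi => ?_⟩, ?_⟩
  · set t := tb ι 1 z with ht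
    have ht1 : ‖t‖ ≤ 1 := by
      obtain ⟨-, -, h3, -⟩ := t2 1 z one_ne_zero hz
      nlinarith [norm_nonneg t]
    have key : ∀ J : ℕ, ‖h z - ∑ j ∈ Finset.range J,
        IntK φ (fun x => (e (ι x)) ^ j) * t ^ (j + 1)‖ ≤ B * (q⁻¹) ^ J := by
      intro J
      have h1 : Tendsto (fun M : ℕ => SInt φ M (fun y => tb ι 1 (z - ι y)) -
          ∑ j ∈ Finset.range J, SInt φ M (fun x => (e (ι x)) ^ j) * t ^ (j + 1)) atTop
          (nhds (h z - ∑ j ∈ Finset.range J, IntK φ (fun x => (e (ι x)) ^ j) * t ^ (j + 1))) := by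
        refine (hA z hz).sub (tendsto_finsetSum _ fun j _ => ?_)
        exact (i1 _ (hE j)).mul_const _
      refine le_of_tendsto' h1.norm fun M => ?_
      unfold SInt
      simp only [Finset.sum_mul]
      rw [Finset.sum_comm, ← Finset.sum_sub_distrib]
      refine IsUltrametricDist.norm_sum_le_of_forall_le_of_nonneg (by positivity) fun s _ => ?_
      have e1 : ∑ j ∈ Finset.range J, φ (mat ((unif F) ^ ((M : ℤ) + 1)) (dig 1 s) 0 1) *
          (e (ι (dig 1 s))) ^ j * t ^ (j + 1) =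
          φ (mat ((unif F) ^ ((M : ℤ) + 1)) (dig 1 s) 0 1) *
            ∑ j ∈ Finset.range J, (e (ι (dig 1 s))) ^ j * t ^ (j + 1) := by
        rw [Finset.mul_sum]
        exact Finset.sum_congr rfl fun j _ => by ring
      rw [e1, ← mul_sub, norm_mul]
      refine mul_le_mul (hφB _) ?_ (norm_nonneg _) hB0
      have h2 := t3 z (dig 1 s) hz hi (dig_InO M s)
      rw [← hasSum_nat_add_iff' J] at h2
      refine norm_le_of_hasSum (by positivity) h2 fun j => ?_
      rw [norm_mul, norm_pow, norm_pow]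
      have h3 : ‖e (ι (dig 1 s))‖ ^ (j + J) ≤ (q⁻¹) ^ (j + J) :=
        pow_le_pow_left₀ (norm_nonneg _) (t1 _) _
      have h4 : (q⁻¹) ^ (j + J) ≤ (q⁻¹) ^ J :=
        pow_le_pow_of_le_one (by positivity) (inv_le_one_of_one_le₀ hq1.le) (by omega)
      have h5 : ‖t‖ ^ (j + J + 1) ≤ 1 := pow_le_one₀ (norm_nonneg _) ht1
      calc ‖e (ι (dig 1 s))‖ ^ (j + J) * ‖t‖ ^ (j + J + 1) ≤ (q⁻¹) ^ J * 1 :=
            mul_le_mul (h3.trans h4) h5 (by positivity) (by positivity)
        _ = (q⁻¹) ^ J := mul_one _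
    have hgeo : Tendsto (fun J : ℕ => B * (q⁻¹) ^ J) atTop (nhds 0) := by
      have e1 : Tendsto (fun M : ℕ => ((q⁻¹) ^ M)) atTop (nhds 0) :=
        tendsto_pow_atTop_nhds_zero_of_lt_one (by positivity) (inv_lt_one_of_one_lt₀ hq1)
      have e2 := (e1.const_mul B)
      rwa [mul_zero] at e2
    have hsum : Summable (fun j : ℕ => IntK φ (fun x => (e (ι x)) ^ j) * t ^ (j + 1)) := by
      refine Summable.of_norm_bounded (g := fun j : ℕ => B * (q⁻¹) ^ j)
        ((summable_geometric_of_lt_one (by positivity) (inv_lt_one_of_one_lt₀ hq1)).mul_left B)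
        fun j => ?_
      rw [norm_mul, norm_pow]
      calc ‖IntK φ (fun x => (e (ι x)) ^ j)‖ * ‖t‖ ^ (j + 1) ≤ (B * (q⁻¹) ^ j) * 1 :=
            mul_le_mul (hI j) (pow_le_one₀ (norm_nonneg _) ht1) (by positivity) (by positivity)
        _ = B * (q⁻¹) ^ j := mul_one _
    have hHS : HasSum (fun j : ℕ => IntK φ (fun x => (e (ι x)) ^ j) * t ^ (j + 1)) (h z) := by
      have h1 := hsum.hasSum.tendsto_sum_nat
      have h2 : Tendsto (fun J : ℕ => ∑ j ∈ Finset.range J,
          IntK φ (fun x => (e (ι x)) ^ j) * t ^ (j + 1)) atTop (nhds (h z)) := by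
        rw [tendsto_iff_norm_sub_tendsto_zero]
        refine squeeze_zero (fun _ => norm_nonneg _) (fun J => ?_) hgeo
        rw [norm_sub_rev]
        exact key J
      have h3 := tendsto_nhds_unique h1 h2
      rw [← h3]; exact hsum.hasSum
    rw [← hasSum_nat_add_iff' 1]
    simp only [Finset.range_one, Finset.sum_singleton, if_true, zero_mul, sub_zero, inv_one,
      one_mul, Nat.add_eq_zero_iff, one_ne_zero, and_false, if_false, Nat.add_sub_cancel]
    exact hHS
  · obtain ⟨-, h2⟩ := i6 (fun x => (e (ι x)) ^ 0) 0 (fun x y _ _ _ => by simp)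
    rw [h2]
    unfold SInt
    simp [dig]

theorem isEA_unique {F : Type} [Field F] [Fintype F] {C : Type} [NormedField C]
    {ι : Kinf F →+* C} {e e' : C → C} (he : IsEA ι e) (he' : IsEA ι e') : e = e' := by
  funext z
  by_cases h : ∀ a : F[X], z ≠ ι (emb F a)
  · obtain ⟨-, h2⟩ := he.inv z h
    obtain ⟨-, h4⟩ := he'.inv z h
    exact inv_injective (h2.unique h4)
  · push Not at h
    obtain ⟨a, rfl⟩ := h
    rw [he.van, he'.van]

/-- A dilation of a holomorphic function is holomorphic. -/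
theorem holo_dil {F : Type} [Field F] [Fintype F] {C : Type} [NormedField C]
    {ι : Kinf F →+* C} {h : C → C} (hh : IsHolo ι h) (x : Kinf F) (hx : x ≠ 0) :
    IsHolo ι (fun w => ι x * h (ι x * w)) := by
  have hb : ι x ≠ 0 := (map_ne_zero ι).2 hx
  have hb0 : 0 < ‖ι x‖ := norm_pos_iff.2 hb
  set q : ℝ := ((Fintype.card F : ℕ) : ℝ) with hq
  have hq1 : 1 < q := by
    rw [hq]; exact_mod_cast Fintype.one_lt_card
  have hq0 : 0 < q := by linarith
  intro N ε hε
  obtain ⟨M1, hM1⟩ := pow_unbounded_of_one_lt (‖ι x‖) hq1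
  obtain ⟨M2, hM2⟩ := pow_unbounded_of_one_lt (‖ι x‖⁻¹) hq1
  have hmap : ∀ w ∈ OmN ι N, ι x * w ∈ OmN ι (N + M1 + M2) := by
    rintro w ⟨hw1, hw2⟩
    refine ⟨?_, fun y => ?_⟩
    · rw [norm_mul]
      calc ‖ι x‖ * ‖w‖ ≤ q ^ M1 * q ^ N :=
            mul_le_mul hM1.le hw1 (norm_nonneg _) (by positivity)
        _ = q ^ (M1 + N) := by rw [pow_add]
        _ ≤ q ^ (N + M1 + M2) := pow_le_pow_right₀ hq1.le (by omega)
    · have h1 := hw2 (y / x)
      have e1 : ι x * w - ι y = ι x * (w - ι (y / x)) := by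
        rw [map_div₀]; field_simp
      rw [e1, norm_mul]
      have h2 : (q ^ (N + M1 + M2))⁻¹ ≤ (q ^ M2)⁻¹ * (q ^ N)⁻¹ := by
        rw [← mul_inv, ← pow_add]
        exact inv_anti₀ (by positivity) (pow_le_pow_right₀ hq1.le (by omega))
      have h3 : (q ^ M2)⁻¹ ≤ ‖ι x‖ := by
        rw [inv_le_comm₀ (by positivity) hb0]; exact hM2.le
      exact h2.trans (mul_le_mul h3 h1 (by positivity) hb0.le)
  obtain ⟨P, Q, h1, h2⟩ := hh (N + M1 + M2) (ε / ‖ι x‖) (by positivity)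
  refine ⟨Polynomial.C (ι x) * P.comp (Polynomial.C (ι x) * X), Q.comp (Polynomial.C (ι x) * X),
    fun w hw => ?_, fun w hw => ?_⟩
  · rw [Polynomial.eval_comp]
    simpa using h1 _ (hmap w hw)
  · have h3 := h2 _ (hmap w hw)
    simp only [Polynomial.eval_mul, Polynomial.eval_comp, Polynomial.eval_C, Polynomial.eval_X]
    have e1 : ι x * h (ι x * w) - ι x * P.eval (ι x * w) / Q.eval (ι x * w) =
        ι x * (h (ι x * w) - P.eval (ι x * w) / Q.eval (ι x * w)) := by ring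
    rw [e1, norm_mul]
    rw [lt_div_iff₀ hb0] at h3
    linarith

theorem exp_thm (hCAU : CAUStmt) (hKHA : KHAStmt) (hTBB : TBBStmt) (hTEX : TEXStmt)
    (hINT : INTStmt) (hLIP : LIPStmt) (hSLA : SLAStmt) : EXPStmt := by
  intro F _ _ C _ _ _ _ ι ρ hc h B b ho hh hB hb hper
  obtain ⟨e, he⟩ := hTEX F C ι hc.ok
  by_cases hb1 : b = 1
  · subst hb1
    have hper' : ∀ a : F[X], slash ι (mat 1 (emb F a) 0 1) h = h := fun a => by
      have := hper a
      rwa [one_mul] at this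
    obtain ⟨r1, r2⟩ := expOne hCAU hKHA hTBB hINT hLIP F C ι ρ hc h B ho hh hB hper' e he
    refine ⟨fun j => IntK (kap ι ρ h) (fun x => (e (ι x)) ^ j), r1, ?_, fun _ e' he' j => ?_⟩
    · rw [map_one, mul_one]; exact r2
    · rw [isEA_unique he' he]
  · obtain ⟨m1, -, m3, -⟩ := Pool.Agent.HK.H47.mtx F
    obtain ⟨hk, -, -⟩ := hKHA F C ι ρ hc
    obtain ⟨-, hkg, -, -⟩ := hk h ho hh
    obtain ⟨-, hS⟩ := hSLA F C ι hc.ok
    obtain ⟨s1, s2, -, -, -, s6⟩ := hS h ho
    obtain ⟨-, t2, -, -, -⟩ := hTBB F C ι hc.ok e he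
    have hembinj : emb F b ≠ 0 := by
      obtain ⟨c1, -⟩ := Pool.Agent.HK.H19.lau F
      intro h0
      refine hb (Polynomial.ext fun i => ?_)
      rw [← c1 b i, h0]; simp
    set β : Kinf F := emb F b with hβ
    have hιβ : ι β ≠ 0 := (map_ne_zero ι).2 hembinj
    have hnβ : 0 < ‖ι β‖ := norm_pos_iff.2 hιβ
    set g : GLK F := mat β 0 0 1 with hg
    obtain ⟨g00, g01, g10, g11⟩ := m1 β 0 0 1 (by simpa using hembinj)
    have hsl : slash ι g h = fun w => ι β * h (ι β * w) := by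
      funext w
      unfold slash
      rw [hg, g00, g01, g10, g11]
      simp
    have hper' : ∀ a : F[X], slash ι (mat 1 (emb F a) 0 1) (slash ι g h) = slash ι g h := by
      intro a
      rw [← s2, hg, m3 _ _ _ _ _ _ _ _ (by simpa using hembinj) (by simp)]
      have e1 : mat (β * 1 + 0 * 0) (β * emb F a + 0 * 1) (0 * 1 + 1 * 0) (0 * emb F a + 1 * 1) =
          mat 1 (emb F (b * a)) 0 1 * mat β 0 0 1 := by
        rw [m3 _ _ _ _ _ _ _ _ (by simp) (by simpa using hembinj), map_mul, ← hβ]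
        simp
      rw [e1, s2, hper a]
    have hholo : IsHolo ι (slash ι g h) := by
      rw [hsl]; exact holo_dil hh β hembinj
    obtain ⟨⟨R, r1⟩, r2⟩ := expOne hCAU hKHA hTBB hINT hLIP F C ι ρ hc (slash ι g h) B (s1 g) hholo
      (s6 B g hB) hper' e he
    refine ⟨fun j => (ι β) ^ j * IntK (kap ι ρ (slash ι g h)) (fun x => (e (ι x)) ^ j), ?_, ?_,
      fun h1 => absurd h1 hb1⟩
    · refine ⟨R * ‖ι β‖, fun z hz hi => ?_⟩
      have hz' : z / ι β ∈ Om ι := by
        intro x hx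
        refine hz (x * β) ?_
        rw [map_mul, ← hx]; field_simp
      have hi' : R ≤ imz ι (z / ι β) := by
        unfold imz
        refine le_ciInf fun x => ?_
        have e1 : z / ι β - ι x = (z - ι (x * β)) / ι β := by
          rw [map_mul]; field_simp
        rw [e1, norm_div, le_div_iff₀ hnβ]
        refine le_trans hi ?_
        unfold imz
        exact ciInf_le ⟨0, by rintro _ ⟨y, rfl⟩; exact norm_nonneg _⟩ (x * β)
      have h1 := r1 _ hz' hi'
      have h2 := h1.mul_left (ι β)⁻¹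
      have e1 : (ι β)⁻¹ * slash ι g h (z / ι β) = h z := by
        rw [hsl]
        show (ι β)⁻¹ * (ι β * h (ι β * (z / ι β))) = h z
        rw [mul_div_cancel₀ _ hιβ, ← mul_assoc, inv_mul_cancel₀ hιβ, one_mul]
      rw [e1] at h2
      have e2 : tb ι 1 (z / ι β) = ι β * tb ι b z := by
        obtain ⟨-, -, -, h5⟩ := t2 1 _ one_ne_zero hz'
        obtain ⟨-, -, -, h6⟩ := t2 b z hb hz
        rw [h5, h6, map_one, map_one, div_one, inv_one, one_mul, ← mul_assoc,
          mul_inv_cancel₀ hιβ, one_mul]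
      rw [e2] at h2
      have hfun : (fun i : ℕ => (if i = 0 then (0 : C) else (ι β) ^ (i - 1) *
          IntK (kap ι ρ (slash ι g h)) (fun x => (e (ι x)) ^ (i - 1))) *
            ((1 : C)⁻¹ * tb ι b z) ^ i) =
          fun i : ℕ => (ι β)⁻¹ * ((if i = 0 then (0 : C) else
          IntK (kap ι ρ (slash ι g h)) (fun x => (e (ι x)) ^ (i - 1))) *
            ((1 : C)⁻¹ * (ι β * tb ι b z)) ^ i) := by
        funext i
        rcases i with _ | j
        · simp
        · simp only [Nat.add_eq_zero_iff, one_ne_zero, and_false, if_false, Nat.add_sub_cancel,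
            inv_one, one_mul]
          rw [mul_pow, pow_succ (ι β) j]
          field_simp
      show HasSum (fun i : ℕ => (if i = 0 then (0 : C) else (ι β) ^ (i - 1) *
          IntK (kap ι ρ (slash ι g h)) (fun x => (e (ι x)) ^ (i - 1))) *
            ((1 : C)⁻¹ * tb ι b z) ^ i) (h z)
      rw [hfun]
      exact h2
    · show (ι β) ^ 0 * IntK (kap ι ρ (slash ι g h)) (fun x => (e (ι x)) ^ 0) = _
      rw [pow_zero, one_mul, r2, hkg, hg, m3 _ _ _ _ _ _ _ _ (by simpa using hembinj) ?_]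
      · congr 1
        simp [mul_comm]
      · obtain ⟨-, -, -, -, -, hu, -⟩ := Pool.Agent.HK.H19.lau F
        simpa using hu

end Pool.Agent.HK.H7
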