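import Pool.Agent.Helper7_HK.CORE

/-! HK, module FRE: the module of integral cuspidal cochains is finite and free. -/

set_option autoImplicit false

namespace Pool.Agent.HK.H7

open Polynomial

theorem finite_deg (F : Type) [Field F] [Fintype F] (m : ℕ) :
    Finite (Polynomial.degreeLT F m) :=
  Finite.of_equiv _ (Polynomial.degreeLTEquiv F m).symm.toEquiv

/-- evaluation at the coset representatives -/
noncomputable def evm (F : Type) [Field F] [Fintype F] (n : F[X]) :
    harm0 n →ₗ[ℤ] (Option (Polynomial.degreeLT F n.natDegree) → ℤ) where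
  toFun φ := fun i => match i with
    | none => (φ : GLK F → ℤ) 1
    | some x => (φ : GLK F → ℤ) (rx (x : F[X]))
  map_add' φ ψ := by
    funext i
    cases i <;> rfl
  map_smul' c φ := by
    funext i
    cases i <;> rfl

/-- FRE -/
theorem fre (hZER : ZERStmt) (hC : COSStmt) (_ : MTXStmt) : FREStmt := by
  intro F _ _ n hn hirr
  have hfin := finite_deg F n.natDegree
  have hinj : Function.Injective (evm F n) := by
    rw [← LinearMap.ker_eq_bot, LinearMap.ker_eq_bot']
    intro φ h0
    obtain ⟨h1, h2, -⟩ := φ.2
    have ha : (φ : GLK F → ℤ) 1 = 0 := congrFun h0 none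
    have hb : ∀ x : F[X], x.degree < n.degree → (φ : GLK F → ℤ) (rx x) = 0 := by
      intro x hx
      have hx' : x ∈ Polynomial.degreeLT F n.natDegree := by
        rw [Polynomial.mem_degreeLT, ← Polynomial.degree_eq_natDegree hn.ne_zero]
        exact hx
      exact congrFun h0 (some ⟨x, hx'⟩)
    have hz : ∀ g, (φ : GLK F → ℤ) g = 0 := by
      apply hZER F ℤ _ h1
      intro γ
      rcases (hC F n hn hirr).1 γ with hγ | ⟨δ, hδ, x, hx, e⟩
      · rw [← mul_one (toK γ), h2 γ hγ, ha]
      · rw [e, h2 δ hδ]
        exact hb x hx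
    apply Subtype.ext
    funext g
    exact hz g
  have hF : Module.Finite ℤ (harm0 n) := Module.Finite.of_injective (evm F n) hinj
  exact ⟨hF, Module.free_of_finite_type_torsion_free'⟩

end Pool.Agent.HK.H7
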