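import Pool.Agent.Helper8_HK.Stmt1

/-! HK, module PPF: the pairing modulo `p` is perfect. -/

set_option autoImplicit false

namespace Pool.Agent.HK.H7

open Polynomial TensorProduct

/-- PPF -/
theorem ppf (hPPZ : PPZStmt) (hFRE : FREStmt) : PPFStmt := by
  intro F _ _ n hn hirr hdeg p _
  obtain ⟨hF1, hF2⟩ := hFRE F n hn hirr
  obtain ⟨-, -, hbij, -⟩ := hPPZ F n hn hirr hdeg
  let e : heckeZ n ≃ₗ[ℤ] Module.Dual ℤ (harm0 n) := LinearEquiv.ofBijective (pairZ n) hbij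
  have ibc : IsBaseChange (ZMod p) (TensorProduct.mk ℤ (ZMod p) (harm0 n) 1) :=
    TensorProduct.isBaseChange ℤ (harm0 n) (ZMod p)
  let E : (ZMod p ⊗[ℤ] heckeZ n) ≃ₗ[ZMod p] Module.Dual (ZMod p) (ZMod p ⊗[ℤ] harm0 n) :=
    (LinearEquiv.baseChange ℤ (ZMod p) (heckeZ n) (Module.Dual ℤ (harm0 n)) e).trans
      ibc.toDualBaseChange
  have hE : Function.Bijective (E : (ZMod p ⊗[ℤ] heckeZ n) →ₗ[ZMod p]
      (ZMod p ⊗[ℤ] harm0 n) →ₗ[ZMod p] ZMod p) := E.bijective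
  have hPP := LinearMap.IsPerfPair.of_bijective (E : (ZMod p ⊗[ℤ] heckeZ n) →ₗ[ZMod p]
      (ZMod p ⊗[ℤ] harm0 n) →ₗ[ZMod p] ZMod p) hE
  refine ⟨(E : (ZMod p ⊗[ℤ] heckeZ n) →ₗ[ZMod p]
      (ZMod p ⊗[ℤ] harm0 n) →ₗ[ZMod p] ZMod p), fun θ φ => ?_, hE, hPP.bijective_right⟩
  have h1 := ibc.toDualBaseChange_tmul (1 : ZMod p) (e θ) φ
  rw [one_mul] at h1
  exact h1

end Pool.Agent.HK.H7
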