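import Pool.Agent.Helper8_HK.Stmt2

/-! HK, module REP: functions on `L` and reduced polynomials. -/

set_option autoImplicit false

namespace Pool.Agent.HK.H7

open MvPolynomial

/-- numbering of the variables -/
theorem eI (r : ℕ) [NeZero r] : ∃ e : Ix r ≃ Fin (4 * r), ∀ j, (e j : ℕ) = j.2.val + r * (j.1 : ℕ) := by
  have hr : 0 < r := Nat.pos_of_ne_zero (NeZero.ne r)
  have hlt : ∀ j : Ix r, j.2.val + r * (j.1 : ℕ) < 4 * r := by
    intro j
    have h1 := ZMod.val_lt j.2
    have h2 : (j.1 : ℕ) ≤ 3 := by omega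
    have h3 : r * (j.1 : ℕ) ≤ r * 3 := Nat.mul_le_mul_left r h2
    omega
  let f : Ix r → Fin (4 * r) := fun j => ⟨j.2.val + r * (j.1 : ℕ), hlt j⟩
  have hinj : Function.Injective f := by
    intro a b hab
    have h0 : a.2.val + r * (a.1 : ℕ) = b.2.val + r * (b.1 : ℕ) := congrArg Fin.val hab
    have ha := ZMod.val_lt a.2
    have hb := ZMod.val_lt b.2
    have h1 : a.2.val = b.2.val := by
      have h2 := congrArg (· % r) h0
      simpa [Nat.mod_eq_of_lt ha, Nat.mod_eq_of_lt hb] using h2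
    have h2 : (a.1 : ℕ) = b.1 := by
      have h3 : r * (a.1 : ℕ) = r * (b.1 : ℕ) := by omega
      exact Nat.eq_of_mul_eq_mul_left hr h3
    exact Prod.ext (Fin.ext h2) (ZMod.val_injective r h1)
  have hcard : Fintype.card (Ix r) = Fintype.card (Fin (4 * r)) := by
    rw [Fintype.card_prod, Fintype.card_fin, ZMod.card, Fintype.card_fin]
  refine ⟨Equiv.ofBijective f ((Fintype.bijective_iff_injective_and_card f).mpr ⟨hinj, hcard⟩),
    fun j => rfl⟩

theorem NN_eq {p r : ℕ} [NeZero r] (e : Ix r ≃ Fin (4 * r))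
    (he : ∀ j, (e j : ℕ) = j.2.val + r * (j.1 : ℕ)) (α : Ix r →₀ ℕ) (hα : ∀ j, α j < p) :
    NN p α = (finFunctionFinEquiv (fun i : Fin (4 * r) => (⟨α (e.symm i), hα _⟩ : Fin p)) : ℕ) := by
  rw [finFunctionFinEquiv_apply]
  unfold NN
  rw [← Equiv.sum_comp e (fun i : Fin (4 * r) => α (e.symm i) * p ^ (i : ℕ))]
  apply Finset.sum_congr rfl
  intro j _
  rw [Equiv.symm_apply_apply, he]

theorem NN_lt {p r : ℕ} [NeZero r] (α : Ix r →₀ ℕ) (hα : ∀ j, α j < p) :
    NN p α < p ^ (4 * r) := by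
  obtain ⟨e, he⟩ := eI r
  rw [NN_eq e he α hα]
  exact Fin.isLt _

theorem NN_inj {p r : ℕ} [NeZero r] {α β : Ix r →₀ ℕ} (hα : ∀ j, α j < p) (hβ : ∀ j, β j < p)
    (h : NN p α = NN p β) : α = β := by
  obtain ⟨e, he⟩ := eI r
  rw [NN_eq e he α hα, NN_eq e he β hβ] at h
  have h1 := finFunctionFinEquiv.injective (Fin.ext h)
  ext j
  have h2 := congrFun h1 (e j)
  have h3 := congrArg Fin.val h2
  simpa using h3

theorem NN_surj (p : ℕ) {r : ℕ} [NeZero r] {N : ℕ} (hN : N < p ^ (4 * r)) :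
    ∃ α : Ix r →₀ ℕ, (∀ j, α j < p) ∧ NN p α = N := by
  obtain ⟨e, he⟩ := eI r
  let f : Fin (4 * r) → Fin p := finFunctionFinEquiv.symm ⟨N, hN⟩
  let α : Ix r →₀ ℕ := Finsupp.equivFunOnFinite.symm (fun j => (f (e j) : ℕ))
  have hα : ∀ j, α j < p := fun j => (f (e j)).isLt
  refine ⟨α, hα, ?_⟩
  rw [NN_eq e he α hα]
  have h1 : (fun i : Fin (4 * r) => (⟨α (e.symm i), hα _⟩ : Fin p)) = f := by
    funext i
    apply Fin.ext
    show ((f (e (e.symm i)) : Fin p) : ℕ) = f i
    rw [Equiv.apply_symm_apply]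
  rw [h1, Equiv.apply_symm_apply]

theorem prod_pw (p : ℕ) {r : ℕ} [NeZero r] {k : Type} [Field k] (y : k) (α : Ix r →₀ ℕ) :
    ∏ j : Ix r, (y ^ (p ^ (j.2.val + r * (j.1 : ℕ)))) ^ α j = y ^ NN p α := by
  unfold NN
  rw [← Finset.prod_pow_eq_pow_sum]
  apply Finset.prod_congr rfl
  intro j _
  rw [← pow_mul, mul_comm]

theorem evL_eq (p : ℕ) {r : ℕ} [NeZero r] {L k : Type} [Field L] [Field k] (σ : L →+* k)
    (P : MvPolynomial (Ix r) k) (x : L) :
    evL p σ P x = ∑ α ∈ P.support, MvPolynomial.coeff α P * (σ x) ^ NN p α := by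
  unfold evL
  rw [MvPolynomial.eval_eq']
  apply Finset.sum_congr rfl
  intro α _
  rw [prod_pw]

theorem evL_mon (p : ℕ) {r : ℕ} [NeZero r] {L k : Type} [Field L] [Field k] (σ : L →+* k)
    (α : Ix r →₀ ℕ) (c : k) (x : L) :
    evL p σ (MvPolynomial.monomial α c) x = c * (σ x) ^ NN p α := by
  unfold evL
  rw [MvPolynomial.eval_monomial, ← prod_pw p (σ x) α, Finsupp.prod_fintype]
  intro j
  exact pow_zero _

theorem evL_sub (p : ℕ) {r : ℕ} {L k : Type} [Field L] [Field k] (σ : L →+* k)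
    (P Q : MvPolynomial (Ix r) k) (x : L) : evL p σ (P - Q) x = evL p σ P x - evL p σ Q x := by
  unfold evL
  exact map_sub _ _ _

theorem evL_sum (p : ℕ) {r : ℕ} {L k : Type} [Field L] [Field k] (σ : L →+* k)
    {ι : Type} (s : Finset ι) (P : ι → MvPolynomial (Ix r) k) (x : L) :
    evL p σ (∑ i ∈ s, P i) x = ∑ i ∈ s, evL p σ (P i) x := by
  unfold evL
  exact map_sum _ _ _

theorem nd_lt {k : Type} [Field k] {f : Polynomial k} {n : ℕ} (hn : 0 < n) (h : f.degree < n) :
    f.natDegree < n := by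
  by_cases h0 : f = 0
  · rw [h0, Polynomial.natDegree_zero]
    exact hn
  · exact (Polynomial.natDegree_lt_iff_degree_lt h0).mpr h

theorem redu_zero {p r : ℕ} [NeZero r] {L k : Type} [Field L] [Field k]
    [Fintype L] (hL : Fintype.card L = p ^ (4 * r)) (σ : L →+* k)
    (P : MvPolynomial (Ix r) k) (hP : Redu p P) (h : ∀ x, evL p σ P x = 0) : P = 0 := by
  classical
  let f : Polynomial k := ∑ α ∈ P.support, Polynomial.monomial (NN p α) (MvPolynomial.coeff α P)
  have hf0 : f = 0 := by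
    apply Polynomial.eq_zero_of_natDegree_lt_card_of_eval_eq_zero f (f := fun x : L => σ x)
      σ.injective
    · intro x
      show Polynomial.eval (σ x) f = 0
      rw [Polynomial.eval_finsetSum]
      simp only [Polynomial.eval_monomial]
      rw [← evL_eq]
      exact h x
    · rw [hL]
      have hpos : 0 < p ^ (4 * r) := by
        rw [← hL]; exact Fintype.card_pos
      apply nd_lt hpos
      refine lt_of_le_of_lt (Polynomial.degree_sum_le _ _) ?_
      rw [Finset.sup_lt_iff (WithBot.bot_lt_coe _)]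
      intro α hα
      refine lt_of_le_of_lt (Polynomial.degree_monomial_le _ _) ?_
      exact_mod_cast NN_lt α (hP α hα)
  ext α
  rw [MvPolynomial.coeff_zero]
  by_contra hne
  have hα : α ∈ P.support := MvPolynomial.mem_support_iff.mpr hne
  have h1 : f.coeff (NN p α) = MvPolynomial.coeff α P := by
    show (∑ β ∈ P.support, Polynomial.monomial (NN p β) (MvPolynomial.coeff β P)).coeff (NN p α) = _
    rw [Polynomial.finsetSum_coeff, Finset.sum_eq_single α]
    · rw [Polynomial.coeff_monomial, if_pos rfl]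
    · intro β hβ hβα
      rw [Polynomial.coeff_monomial, if_neg]
      intro h2
      exact hβα (NN_inj (hP β hβ) (hP α hα) h2)
    · intro h2
      exact absurd hα h2
  rw [hf0, Polynomial.coeff_zero] at h1
  exact hne h1.symm

/-- REP -/
theorem rep : REPStmt := by
  classical
  intro p r _ _ L k _ _ _ _ hL σ
  refine ⟨fun E => ?_, fun P Q hP hQ h => ?_⟩
  · let f : Polynomial k := Lagrange.interpolate Finset.univ (fun x : L => σ x) E
    have hinj : Set.InjOn (fun x : L => σ x) (Finset.univ : Finset L) := fun a _ b _ hab =>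
      σ.injective hab
    have hev : ∀ x, Polynomial.eval (σ x) f = E x := fun x =>
      Lagrange.eval_interpolate_at_node E hinj (Finset.mem_univ x)
    have hdeg : f.natDegree < p ^ (4 * r) := by
      have hpos : 0 < p ^ (4 * r) := by
        rw [← hL]; exact Fintype.card_pos
      apply nd_lt hpos
      have h1 := Lagrange.degree_interpolate_lt E hinj
      rw [Finset.card_univ, hL] at h1
      exact h1
    have hch : ∀ N : ℕ, ∃ α : Ix r →₀ ℕ, N < p ^ (4 * r) → (∀ j, α j < p) ∧ NN p α = N := by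
      intro N
      by_cases hN : N < p ^ (4 * r)
      · obtain ⟨α, h1, h2⟩ := NN_surj p (r := r) hN
        exact ⟨α, fun _ => ⟨h1, h2⟩⟩
      · exact ⟨0, fun h1 => absurd h1 hN⟩
    choose dg hdg using hch
    refine ⟨∑ N ∈ Finset.range (p ^ (4 * r)), MvPolynomial.monomial (dg N) (f.coeff N), ?_, ?_⟩
    · intro α hα
      have h1 := MvPolynomial.support_sum hα
      rw [Finset.mem_biUnion] at h1
      obtain ⟨N, hN, h2⟩ := h1
      have h3 := MvPolynomial.support_monomial_subset h2
      rw [Finset.mem_singleton] at h3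
      rw [h3]
      exact (hdg N (Finset.mem_range.mp hN)).1
    · intro x
      rw [evL_sum, ← hev x, Polynomial.eval_eq_sum_range' hdeg]
      apply Finset.sum_congr rfl
      intro N hN
      rw [evL_mon, (hdg N (Finset.mem_range.mp hN)).2]
  · have h0 : P - Q = 0 := by
      apply redu_zero hL σ (P - Q)
      · intro α hα
        have h1 := MvPolynomial.support_sub _ P Q hα
        rcases Finset.mem_union.mp h1 with h2 | h2
        · exact hP α h2
        · exact hQ α h2
      · intro x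
        rw [evL_sub, h x, sub_self]
    exact sub_eq_zero.mp h0

end Pool.Agent.HK.H7
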