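import Pool.Agent.Helper8_HK.Stmt3

/-! Squad HK, module RES: the residue. -/

namespace Pool.Agent.HK.H7

open Polynomial Filter

section

variable {F : Type} [Fintype F] {C : Type} [NormedField C]

theorem SK_add (ρ : C) (k : ℕ) (h h' : C → C) :
    SK F ρ k (fun z => h z + h' z) = SK F ρ k h + SK F ρ k h' := by
  simp only [SK, add_mul, Finset.sum_add_distrib]; ring

theorem SK_mul (ρ : C) (k : ℕ) (c : C) (h : C → C) :
    SK F ρ k (fun z => c * h z) = c * SK F ρ k h := by
  simp only [SK, mul_assoc, ← Finset.mul_sum]; ring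

theorem SK_sub (ρ : C) (k : ℕ) (h h' : C → C) :
    SK F ρ k (fun z => h z - h' z) = SK F ρ k h - SK F ρ k h' := by
  simp only [SK, sub_mul, Finset.sum_sub_distrib]; ring

end

theorem res_thm (hS : SCHStmt) (hE : ELMStmt) : RESStmt := by
  intro F _ _ C _ _ _ _ ι ρ hc
  obtain ⟨s1, s2, s3, s4, s5⟩ := hS F C ι ρ hc
  obtain ⟨-, -, e3⟩ := hE C {z : C | ‖z‖ = ‖ρ‖}
  have hcompl : ({z : C | ‖z‖ = ‖ρ‖}ᶜ : Set C) = {a : C | ‖a‖ ≠ ‖ρ‖} := rfl
  rw [hcompl] at e3
  have hρ0 : 0 ≤ ‖ρ‖ := norm_nonneg ρ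
  -- convergence for elementary functions
  have conv : ∀ e ∈ Elm {a : C | ‖a‖ ≠ ‖ρ‖}, ∃ l : C,
      Tendsto (fun k => SK F ρ k e) atTop (nhds l) := by
    intro e he
    unfold Elm at he
    induction he using Submodule.span_induction with
    | mem f hf =>
      rcases hf with ⟨j, rfl⟩ | ⟨a, ha, j, rfl⟩
      · exact ⟨0, s1 j⟩
      · rcases j with _ | j
        · rcases lt_or_gt_of_ne ha with h | h
          · exact ⟨1, by simpa using s2 a h⟩
          · exact ⟨0, by simpa using s3 a h⟩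
        · exact ⟨0, s4 a j ha⟩
    | zero =>
      refine ⟨0, ?_⟩
      have : (fun k => SK F ρ k (0 : C → C)) = fun _ => (0 : C) := by
        funext k; simp [SK]
      rw [this]; exact tendsto_const_nhds
    | add x y _ _ hx hy =>
      obtain ⟨l, hl⟩ := hx
      obtain ⟨l', hl'⟩ := hy
      refine ⟨l + l', ?_⟩
      have : (fun k => SK F ρ k (x + y)) = fun k => SK F ρ k x + SK F ρ k y := by
        funext k; exact SK_add ρ k x y
      rw [this]; exact hl.add hl'
    | smul c x _ hx =>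
      obtain ⟨l, hl⟩ := hx
      refine ⟨c * l, ?_⟩
      have : (fun k => SK F ρ k (c • x)) = fun k => c * SK F ρ k x := by
        funext k; exact SK_mul ρ k c x
      rw [this]; exact hl.const_mul c
  have A : ∀ h : C → C, Nice ρ h → Tendsto (fun k => SK F ρ k h) atTop (nhds (res F ρ h)) := by
    intro h hh
    have hcau : CauchySeq (fun k => SK F ρ k h) := by
      rw [Metric.cauchySeq_iff']
      intro ε hε
      obtain ⟨e, he, hb⟩ := hh (ε / 4 / (‖ρ‖ + 1)) (by positivity)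
      obtain ⟨l, hl⟩ := conv e he
      have hl2 := hl.cauchySeq
      rw [Metric.cauchySeq_iff'] at hl2
      obtain ⟨N, hN⟩ := hl2 (ε / 4) (by positivity)
      refine ⟨N, fun n hn => ?_⟩
      have hd : ∀ k, ‖SK F ρ k h - SK F ρ k e‖ ≤ ε / 4 := by
        intro k
        rw [← SK_sub]
        have h1 := s5 (fun z => h z - e z) (ε / 4 / (‖ρ‖ + 1)) k (by positivity) hb
        refine le_trans h1 ?_
        rw [← mul_div_assoc, div_le_iff₀ (by positivity)]
        nlinarith
      have h2 := hN n hn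
      rw [dist_eq_norm] at h2 ⊢
      have e1 : SK F ρ n h - SK F ρ N h = (SK F ρ n h - SK F ρ n e) +
          (SK F ρ n e - SK F ρ N e) - (SK F ρ N h - SK F ρ N e) := by ring
      rw [e1]
      have h3 := hd n
      have h4 := hd N
      have h5 := norm_sub_le ((SK F ρ n h - SK F ρ n e) + (SK F ρ n e - SK F ρ N e))
        (SK F ρ N h - SK F ρ N e)
      have h6 := norm_add_le (SK F ρ n h - SK F ρ n e) (SK F ρ n e - SK F ρ N e)
      linarith
    exact hcau.tendsto_limUnder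
  have nadd : ∀ h h' : C → C, Nice ρ h → Nice ρ h' → Nice ρ (fun z => h z + h' z) := by
    intro h h' hh hh' ε hε
    obtain ⟨e, he, hb⟩ := hh (ε / 2) (by positivity)
    obtain ⟨e', he', hb'⟩ := hh' (ε / 2) (by positivity)
    refine ⟨e + e', Submodule.add_mem _ he he', fun z hz => ?_⟩
    have e1 : h z + h' z - (e + e') z = (h z - e z) + (h' z - e' z) := by
      simp only [Pi.add_apply]; ring
    rw [e1]
    have := norm_add_le (h z - e z) (h' z - e' z)
    linarith [hb z hz, hb' z hz]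
  have nmul : ∀ (c : C) (h : C → C), Nice ρ h → Nice ρ (fun z => c * h z) := by
    intro c h hh ε hε
    obtain ⟨e, he, hb⟩ := hh (ε / (‖c‖ + 1)) (by positivity)
    refine ⟨c • e, Submodule.smul_mem _ c he, fun z hz => ?_⟩
    have e1 : c * h z - (c • e) z = c * (h z - e z) := by
      simp only [Pi.smul_apply, smul_eq_mul]; ring
    rw [e1, norm_mul]
    have h1 : ‖c‖ * ‖h z - e z‖ ≤ ‖c‖ * (ε / (‖c‖ + 1)) :=
      mul_le_mul_of_nonneg_left (hb z hz) (norm_nonneg c)
    refine le_trans h1 ?_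
    rw [← mul_div_assoc, div_le_iff₀ (by positivity)]
    nlinarith [norm_nonneg c]
  have nelm : ∀ e ∈ Elm {a : C | ‖a‖ ≠ ‖ρ‖}, Nice ρ e := by
    intro e he ε hε
    exact ⟨e, he, fun z _ => by simpa using hε.le⟩
  have npow : ∀ j : ℕ, Nice ρ (fun z : C => z ^ j) := fun j =>
    nelm _ (Submodule.subset_span (Or.inl ⟨j, rfl⟩))
  have ninv : ∀ (a : C) (j : ℕ), ‖a‖ ≠ ‖ρ‖ → Nice ρ (fun z : C => ((z - a) ^ (j + 1))⁻¹) :=
    fun a j ha => nelm _ (Submodule.subset_span (Or.inr ⟨a, ha, j, rfl⟩))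
  have ninv1 : ∀ (a : C), ‖a‖ ≠ ‖ρ‖ → Nice ρ (fun z : C => (z - a)⁻¹) := by
    intro a ha
    have := ninv a 0 ha
    simpa using this
  refine ⟨A, fun h h' hh hh' => ⟨nadd h h' hh hh', ?_⟩, fun c h hh => ⟨nmul c h hh, ?_⟩,
    fun h h' heq => ⟨fun hh => ?_, ?_⟩, fun h B hh hB hb => ?_, fun h hh => ?_, nelm,
    fun h b hh hb => ?_, fun j => ?_, fun a ha => ?_, fun a ha => ?_, fun a j ha => ?_⟩
  · refine tendsto_nhds_unique (A _ (nadd h h' hh hh')) ?_
    have : (fun k => SK F ρ k (fun z => h z + h' z)) = fun k => SK F ρ k h + SK F ρ k h' := by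
      funext k; exact SK_add ρ k h h'
    rw [this]; exact (A h hh).add (A h' hh')
  · refine tendsto_nhds_unique (A _ (nmul c h hh)) ?_
    have : (fun k => SK F ρ k (fun z => c * h z)) = fun k => c * SK F ρ k h := by
      funext k; exact SK_mul ρ k c h
    rw [this]; exact (A h hh).const_mul c
  · intro ε hε
    obtain ⟨e, he, hb⟩ := hh ε hε
    refine ⟨e, he, fun z hz => ?_⟩
    rw [← heq z hz]; exact hb z hz
  · have e1 : (fun k => SK F ρ k h) = fun k => SK F ρ k h' := by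
      funext k
      have h1 := s5 (fun z => h z - h' z) 0 k le_rfl (fun z hz => by
        show ‖h z - h' z‖ ≤ 0
        rw [heq z hz]; simp)
      rw [SK_sub, mul_zero] at h1
      exact sub_eq_zero.1 (norm_le_zero_iff.1 h1)
    show limUnder atTop (fun k => SK F ρ k h) = limUnder atTop (fun k => SK F ρ k h')
    rw [e1]
  · exact le_of_tendsto (A h hh).norm (Filter.Eventually.of_forall fun k => s5 h B k hB hb)
  · intro ε hε
    obtain ⟨h', hh', hb'⟩ := hh (ε / 2) (by positivity)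
    obtain ⟨e, he, hb⟩ := hh' (ε / 2) (by positivity)
    refine ⟨e, he, fun z hz => ?_⟩
    have e1 : h z - e z = (h z - h' z) + (h' z - e z) := by ring
    rw [e1]
    have := norm_add_le (h z - h' z) (h' z - e z)
    linarith [hb z hz, hb' z hz]
  · intro ε hε
    have hd0 : 0 < |‖ρ‖ - ‖b‖| := abs_pos.2 (sub_ne_zero.2 (Ne.symm hb))
    obtain ⟨e, he, hbe⟩ := hh (ε * |‖ρ‖ - ‖b‖|) (by positivity)
    obtain ⟨e', he', heq⟩ := e3 e he b hb
    refine ⟨e', he', fun z hz => ?_⟩
    rw [← heq z hz, ← sub_mul, norm_mul, norm_inv]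
    have h1 : |‖ρ‖ - ‖b‖| ≤ ‖z - b‖ := by
      have := abs_norm_sub_norm_le z b
      rwa [show ‖z‖ = ‖ρ‖ from hz] at this
    have h2 : 0 < ‖z - b‖ := lt_of_lt_of_le hd0 h1
    rw [← div_eq_mul_inv, div_le_iff₀ h2]
    exact le_trans (hbe z hz) (mul_le_mul_of_nonneg_left h1 hε.le)
  · exact tendsto_nhds_unique (A _ (npow j)) (s1 j)
  · exact tendsto_nhds_unique (A _ (ninv1 a ha.ne)) (s2 a ha)
  · exact tendsto_nhds_unique (A _ (ninv1 a ha.ne')) (s3 a ha)
  · exact tendsto_nhds_unique (A _ (ninv a (j + 1) ha)) (s4 a j ha)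

end Pool.Agent.HK.H7
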